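import Pool.Agent.W510.CG.Stm
/-! CG-SUB (MP_6aa20f_lc): two ends in the same branch are separated further away. -/
set_option autoImplicit false

namespace Pool.Agent.W465.CGSub
open Pool.Agent.W510.CG

variable {L : Type} [AddCommGroup L] [LinearOrder L] [IsOrderedAddMonoid L]

lemma sep {x y : L →₀ ℤ} (h : x ≠ y) : ∃ m : L, x m ≠ y m ∧ ∀ μ : L, m < μ → x μ = y μ := by
  obtain ⟨h1, h2⟩ := v_spec (sub_ne_zero.2 h)
  refine ⟨v (x - y), fun he => h1 ?_, fun μ hμ => ?_⟩
  · rw [Finsupp.sub_apply, he, sub_self]
  · have := h2 μ hμ
    rw [Finsupp.sub_apply] at this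
    exact sub_eq_zero.1 this

lemma inside {f : L →₀ ℤ} {l m : L} (h : l < m) {t : Pt L} (ht : br (f, l) t ≠ none) :
    br (f, m) t = some (f m) := by
  cases t with
  | none => exact absurd rfl ht
  | some t =>
    by_cases hc : ∀ μ : L, (f, l).2 < μ → t μ = (f, l).1 μ
    · rw [br_eq_some]
      exact ⟨fun μ hμ => hc μ (h.trans hμ), hc m h⟩
    · exact absurd (br_some_not hc) ht

lemma outside {f x : L →₀ ℤ} {l : L} (h : br (f, l) (some x) = none) :
    ∃ m : L, l < m ∧ x m ≠ f m ∧ ∀ μ : L, m < μ → x μ = f μ := by
  have hc : ¬ ∀ μ : L, (f, l).2 < μ → x μ = (f, l).1 μ := by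
    intro hc
    rw [br_some_of hc] at h
    exact absurd h (by simp)
  push Not at hc
  obtain ⟨μ, hμ, hne⟩ := hc
  obtain ⟨m, hm, hm'⟩ := sep (x := x) (y := f) (by rintro rfl; exact hne rfl)
  refine ⟨m, ?_, hm, hm'⟩
  by_contra hle
  exact hne (hm' μ (lt_of_le_of_lt (not_lt.1 hle) hμ))

def Goal (γ : (L →₀ ℤ) × L) (x y z : Pt L) : Prop :=
  ∃ δ : (L →₀ ℤ) × L, br δ x ≠ br δ y ∧ br δ x ≠ br δ z ∧ br δ y ≠ br δ z ∧
      ∀ t : Pt L, br γ t = br γ x ∨ br δ t = br δ z

lemma Goal.swap {γ : (L →₀ ℤ) × L} {x y z : Pt L} (h : Goal γ x y z) (he : br γ x = br γ y) :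
    Goal γ y x z := by
  obtain ⟨δ, h1, h2, h3, h4⟩ := h
  exact ⟨δ, h1.symm, h3, h2, fun t => by rw [← he]; exact h4 t⟩

/-- the outer case, one end is `none` -/
lemma case_none {f y : L →₀ ℤ} {l : L} {z : Pt L} (hy : br (f, l) (some y) = none)
    (hz : br (f, l) z ≠ none) : Goal (f, l) none (some y) z := by
  obtain ⟨m, hlm, hm, hm'⟩ := outside hy
  have ey : br (f, m) (some y) = some (y m) := br_eq_some.2 ⟨hm', rfl⟩
  have ez := inside hlm hz
  refine ⟨(f, m), ?_, ?_, ?_, fun t => ?_⟩
  · rw [ey, br_none]; simp
  · rw [ez, br_none]; simp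
  · rw [ez, ey]; simpa using hm
  · by_cases ht : br (f, l) t = none
    · left; rw [ht, br_none]
    · right; rw [ez]; exact inside hlm ht

/-- the outer case, different heights -/
lemma case_lt {f x y : L →₀ ℤ} {l m1 m2 : L} {z : Pt L} (hx : br (f, l) (some x) = none)
    (hl : l < m1) (h12 : m1 < m2) (hx1 : x m1 ≠ f m1) (hx2 : ∀ μ : L, m1 < μ → x μ = f μ)
    (hy1 : y m2 ≠ f m2) (hz : br (f, l) z ≠ none) : Goal (f, l) (some x) (some y) z := by
  have ex : br (f, m1) (some x) = some (x m1) := br_eq_some.2 ⟨hx2, rfl⟩
  have ey : br (f, m1) (some y) = none := br_some_not (fun h => hy1 (h m2 h12))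
  have ez := inside hl hz
  refine ⟨(f, m1), ?_, ?_, ?_, fun t => ?_⟩
  · rw [ex, ey]; simp
  · rw [ex, ez]; simpa using hx1
  · rw [ey, ez]; simp
  · by_cases ht : br (f, l) t = none
    · left; rw [ht, hx]
    · right; rw [ez]; exact inside hl ht

theorem main : S_SUB := by
  intro L _ _ _ γ x y z hxy hbr hz
  obtain ⟨f, l⟩ := γ
  show Goal (f, l) x y z
  rcases hp : br (f, l) x with _ | c
  · -- outer branch
    have hy : br (f, l) y = none := by rw [← hbr, hp]
    rw [hp] at hz
    cases x with
    | none =>
      cases y with
      | none => exact absurd rfl hxy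
      | some y => exact case_none hy hz
    | some x =>
      cases y with
      | none => exact (case_none hp hz).swap hbr.symm
      | some y =>
        obtain ⟨m1, hl1, hx1, hx2⟩ := outside hp
        obtain ⟨m2, hl2, hy1, hy2⟩ := outside hy
        rcases lt_trichotomy m1 m2 with h12 | h12 | h12
        · exact case_lt hp hl1 h12 hx1 hx2 hy1 hz
        · subst h12
          by_cases hxym : x m1 = y m1
          · obtain ⟨k, hk1, hk2⟩ := sep (x := x) (y := y) (fun h => hxy (by rw [h]))
            have hkm : k < m1 := by
              by_contra hle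
              rcases lt_or_eq_of_le (not_lt.1 hle) with h | h
              · exact hk1 ((hx2 k h).trans (hy2 k h).symm)
              · subst h; exact hk1 hxym
            have ex : br (x, k) (some x) = some (x k) := br_eq_some.2 ⟨fun _ _ => rfl, rfl⟩
            have ey : br (x, k) (some y) = some (y k) :=
              br_eq_some.2 ⟨fun μ hμ => (hk2 μ hμ).symm, rfl⟩
            have et : ∀ t : Pt L, br (f, l) t ≠ none → br (x, k) t = none := by
              intro t ht
              cases t with
              | none => exact absurd rfl ht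
              | some t =>
                apply br_some_not
                intro h
                have h1 := h m1 hkm
                have h2 := inside hl1 ht
                rw [br_eq_some] at h2
                exact hx1 (h1.symm.trans h2.2)
            refine ⟨(x, k), ?_, ?_, ?_, fun t => ?_⟩
            · rw [ex, ey]; simpa using hk1
            · rw [ex, et z hz]; simp
            · rw [ey, et z hz]; simp
            · by_cases ht : br (f, l) t = none
              · left; rw [ht, hp]
              · right; rw [et z hz]; exact et t ht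
          · have ex : br (f, m1) (some x) = some (x m1) := br_eq_some.2 ⟨hx2, rfl⟩
            have ey : br (f, m1) (some y) = some (y m1) := br_eq_some.2 ⟨hy2, rfl⟩
            have ez := inside hl1 hz
            refine ⟨(f, m1), ?_, ?_, ?_, fun t => ?_⟩
            · rw [ex, ey]; simpa using hxym
            · rw [ex, ez]; simpa using hx1
            · rw [ey, ez]; simpa using hy1
            · by_cases ht : br (f, l) t = none
              · left; rw [ht, hp]
              · right; rw [ez]; exact inside hl1 ht
        · exact (case_lt hy hl2 h12 hy1 hy2 hx1 hz).swap hbr.symm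
  · -- inner branch
    have hy : br (f, l) y = some c := by rw [← hbr, hp]
    rw [hp] at hz
    cases x with
    | none => exact absurd hp (by rw [br_none]; simp)
    | some x =>
      cases y with
      | none => exact absurd hy (by rw [br_none]; simp)
      | some y =>
        rw [br_eq_some] at hy
        have hp' := br_eq_some.1 hp
        obtain ⟨m, hm1, hm2⟩ := sep (x := x) (y := y) (fun h => hxy (by rw [h]))
        have hml : m < l := by
          by_contra hle
          rcases lt_or_eq_of_le (not_lt.1 hle) with h | h
          · exact hm1 ((hp'.1 m h).trans (hy.1 m h).symm)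
          · subst h; exact hm1 (hp'.2.trans hy.2.symm)
        have ex : br (x, m) (some x) = some (x m) := br_eq_some.2 ⟨fun _ _ => rfl, rfl⟩
        have ey : br (x, m) (some y) = some (y m) :=
          br_eq_some.2 ⟨fun μ hμ => (hm2 μ hμ).symm, rfl⟩
        have et : ∀ t : Pt L, br (f, l) t ≠ some c → br (x, m) t = none := by
          intro t ht
          cases t with
          | none => rfl
          | some t =>
            apply br_some_not
            intro h
            apply ht
            rw [br_eq_some]
            exact ⟨fun μ hμ => (h μ (hml.trans hμ)).trans (hp'.1 μ hμ), (h l hml).trans hp'.2⟩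
        refine ⟨(x, m), ?_, ?_, ?_, fun t => ?_⟩
        · rw [ex, ey]; simpa using hm1
        · rw [ex, et z hz]; simp
        · rw [ey, et z hz]; simp
        · by_cases ht : br (f, l) t = some c
          · left; rw [ht, hp]
          · right; rw [et z hz]; exact et t ht

end Pool.Agent.W465.CGSub
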