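import Pool.Agent.W894.HT.Gr
/-! HT-NSP (MP_4ed1f9_lc): simple paths in the graph of a list of stages as full lists of vertices. -/
set_option autoImplicit false

namespace Pool.Agent.W465.HTNsp
open Pool.Agent.W894.HT

lemma chain_pred {N : Type} {R : N → N → Prop} : ∀ (l : List N) (a : N), (a :: l).IsChain R →
    ∀ v ∈ l, ∃ u, R u v := by
  intro l
  induction l with
  | nil => intro a _ v hv; simp at hv
  | cons b l ih =>
    intro a h v hv
    rw [List.isChain_cons_cons] at h
    rcases List.mem_cons.1 hv with rfl | hv
    · exact ⟨a, h.1⟩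
    · exact ih b h.2 v hv

lemma ad_mem {S : Stg} {u v : Nm} {L : List Nm} (h : adS S u v = true)
    (hE : ∀ p ∈ EE S, p.1 ∈ L ∧ p.2 ∈ L) : v ∈ L := by
  unfold adS at h
  rw [Bool.or_eq_true, decide_eq_true_eq, decide_eq_true_eq] at h
  rcases h with h | h
  · exact (hE _ h).2
  · exact (hE _ h).1

theorem main : S_NSP := by
  intro S rest hS hnd hE
  have hne : hub 0 ≠ hub S.length := by
    intro h
    have : S.length = 0 := by
      simp only [hub, Prod.mk.injEq] at h
      omega
    exact hS (List.length_eq_zero_iff.1 this)
  rw [List.nodup_cons, List.nodup_cons] at hnd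
  obtain ⟨h0, h1, -⟩ := hnd
  have h0' : hub 0 ∉ rest := fun h => h0 (List.mem_cons_of_mem _ h)
  unfold nsp
  refine Nat.card_congr ?_
  have hback : ∀ l' : List Nm, isP S l' →
      l' = hub 0 :: (l'.tail.dropLast ++ [hub S.length]) := by
    intro l' h
    obtain ⟨-, hh, hl, -⟩ := h
    cases l' with
    | nil => simp at hh
    | cons a t =>
      simp only [List.head?_cons, Option.some.injEq] at hh
      subst hh
      have ht : t ≠ [] := by
        rintro rfl
        simp only [List.getLast?_singleton, Option.some.injEq] at hl
        exact hne hl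
      have hl2 : t.getLast ht = hub S.length := by
        rw [List.getLast?_eq_getLast_of_ne_nil (List.cons_ne_nil _ _), List.getLast_cons ht] at hl
        exact Option.some.inj hl
      rw [List.tail_cons]
      congr 1
      rw [← hl2]
      exact (List.dropLast_append_getLast ht).symm
  refine ⟨fun l => ⟨hub 0 :: (l.1 ++ [hub S.length]), ?_, ?_, ?_, l.2.2.2⟩,
    fun l' => ⟨l'.1.tail.dropLast, ?_, ?_, ?_⟩, ?_, ?_⟩
  · obtain ⟨l, hl, hr, hc⟩ := l
    simp only
    rw [List.nodup_cons, List.nodup_append]
    refine ⟨?_, hl, by simp, ?_⟩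
    · rw [List.mem_append, List.mem_singleton]
      rintro (h | h)
      · exact h0' (hr _ h)
      · exact hne h
    · intro a ha b hb
      rw [List.mem_singleton] at hb
      rw [hb]
      rintro rfl
      exact h1 (hr _ ha)
  · simp
  · obtain ⟨l, hl, hr, hc⟩ := l
    simp only
    rw [← List.cons_append, List.getLast?_append]
    simp
  · have := l'.2.1
    rw [hback l'.1 l'.2, List.nodup_cons] at this
    exact (List.nodup_append.1 this.2).1
  · intro v hv
    have hP := l'.2
    have hb := hback l'.1 hP
    have hch := hP.2.2.2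
    have hnd := hP.1
    rw [hb] at hch hnd
    rw [List.nodup_cons, List.nodup_append] at hnd
    obtain ⟨u, hu⟩ := chain_pred _ _ hch v (List.mem_append_left _ hv)
    have hm := ad_mem hu hE
    rcases List.mem_cons.1 hm with h | hm
    · exfalso
      apply hnd.1
      rw [← h]
      exact List.mem_append_left _ hv
    · rcases List.mem_cons.1 hm with h | hm
      · exact absurd h (hnd.2.2.2 v hv _ (List.mem_singleton_self _))
      · exact hm
  · have := l'.2.2.2.2
    rw [hback l'.1 l'.2] at this
    exact this
  · intro l
    apply Subtype.ext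
    simp
  · intro l'
    apply Subtype.ext
    exact (hback l'.1 l'.2).symm

end Pool.Agent.W465.HTNsp
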