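import Pool.Agent.H379R3.RgK

/-!
Projective dimension of quotients of polynomial rings by variables.
-/

open CategoryTheory Abelian MvPolynomial

universe u

namespace Pool.Agent.W465.PD

section general

variable (R : Type u) [CommRing R]

/-- the projective dimension of `M` is `< n` -/
def PL (M : Type u) [AddCommGroup M] [Module R M] (n : ℕ) : Prop :=
  HasProjectiveDimensionLT (ModuleCat.of R M) n

variable {R}

lemma shortExact {A B C : Type u} [AddCommGroup A] [AddCommGroup B] [AddCommGroup C]
    [Module R A] [Module R B] [Module R C] (f : A →ₗ[R] B) (g : B →ₗ[R] C)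
    (hf : Function.Injective f) (hg : Function.Surjective g) (h : ∀ b, g b = 0 ↔ ∃ a, f a = b) :
    ∃ S : ShortComplex (ModuleCat.{u} R), S.ShortExact ∧ S.X₁ = ModuleCat.of R A ∧
      S.X₂ = ModuleCat.of R B ∧ S.X₃ = ModuleCat.of R C := by
  have h0 : g.comp f = 0 := by
    ext a
    exact (h (f a)).mpr ⟨a, rfl⟩
  have hex : Function.Exact f g := fun b => h b
  refine ⟨ModuleCat.shortComplexOfCompEqZero f g h0, ?_, rfl, rfl, rfl⟩
  exact ModuleCat.shortComplex_shortExact _ hex hf hg

lemma PL.mid {A B C : Type u} [AddCommGroup A] [AddCommGroup B] [AddCommGroup C]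
    [Module R A] [Module R B] [Module R C] (f : A →ₗ[R] B) (g : B →ₗ[R] C)
    (hf : Function.Injective f) (hg : Function.Surjective g) (h : ∀ b, g b = 0 ↔ ∃ a, f a = b)
    {n : ℕ} (hA : PL R A n) (hC : PL R C n) : PL R B n := by
  obtain ⟨S, hS, h1, h2, h3⟩ := shortExact f g hf hg h
  have := hS.hasProjectiveDimensionLT_X₂ n (by rw [h1]; exact hA) (by rw [h3]; exact hC)
  rw [h2] at this
  exact this

lemma PL.right {A B C : Type u} [AddCommGroup A] [AddCommGroup B] [AddCommGroup C]
    [Module R A] [Module R B] [Module R C] (f : A →ₗ[R] B) (g : B →ₗ[R] C)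
    (hf : Function.Injective f) (hg : Function.Surjective g) (h : ∀ b, g b = 0 ↔ ∃ a, f a = b)
    {n : ℕ} (hA : PL R A n) (hB : PL R B (n + 1)) : PL R C (n + 1) := by
  obtain ⟨S, hS, h1, h2, h3⟩ := shortExact f g hf hg h
  have := hS.hasProjectiveDimensionLT_X₃ n (by rw [h1]; exact hA) (by rw [h2]; exact hB)
  rw [h3] at this
  exact this

lemma PL.equiv {A B : Type u} [AddCommGroup A] [AddCommGroup B] [Module R A] [Module R B]
    (e : A ≃ₗ[R] B) {n : ℕ} (hA : PL R A n) : PL R B n := by
  have : HasProjectiveDimensionLT (ModuleCat.of R A) n := hA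
  exact hasProjectiveDimensionLT_of_iso e.toModuleIso n

lemma PL.retract {A B : Type u} [AddCommGroup A] [AddCommGroup B] [Module R A] [Module R B]
    (i : A →ₗ[R] B) (r : B →ₗ[R] A) (h : ∀ a, r (i a) = a) {n : ℕ} (hB : PL R B n) :
    PL R A n := by
  have : HasProjectiveDimensionLT (ModuleCat.of R B) n := hB
  have hr : Retract (ModuleCat.of R A) (ModuleCat.of R B) :=
    { i := ModuleCat.ofHom i
      r := ModuleCat.ofHom r
      retract := by
        ext a
        exact h a }
  exact hr.hasProjectiveDimensionLT n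

lemma PL.mono {A : Type u} [AddCommGroup A] [Module R A] {m n : ℕ} (hmn : m ≤ n)
    (hA : PL R A m) : PL R A n := by
  have : HasProjectiveDimensionLT (ModuleCat.of R A) m := hA
  exact hasProjectiveDimensionLT_of_ge _ m n hmn

lemma PL.self : PL R R 1 := by
  have : Projective (ModuleCat.of R R) := ModuleCat.projective_of_free (Module.Free.chooseBasis R R)
  exact projective_iff_hasProjectiveDimensionLT_one.mp this

lemma PL.pi {n : ℕ} : ∀ {k : ℕ} (A : Fin k → Type u) [∀ i, AddCommGroup (A i)]
    [∀ i, Module R (A i)], (∀ i, PL R (A i) n) → PL R (∀ i, A i) n := by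
  intro k
  induction k with
  | zero =>
    intro A _ _ _
    refine PL.mono (m := 0) (Nat.zero_le _) ?_
    refine (Limits.IsZero.hasProjectiveDimensionLT_zero ?_)
    rw [ModuleCat.isZero_iff_subsingleton]
    infer_instance
  | succ k ih =>
    intro A _ _ hA
    refine PL.mid (A := A 0) (B := ∀ i, A i) (C := ∀ i : Fin k, A i.succ)
      { toFun := fun a => Fin.cons a (fun _ => 0)
        map_add' := fun a b => by
          funext i
          refine Fin.cases ?_ (fun i => ?_) i
          · rfl
          · exact (add_zero _).symm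
        map_smul' := fun p a => by
          funext i
          refine Fin.cases ?_ (fun i => ?_) i
          · rfl
          · exact (smul_zero (A := A i.succ) p).symm }
      { toFun := fun f i => f i.succ
        map_add' := fun _ _ => rfl
        map_smul' := fun _ _ => rfl } ?_ ?_ ?_ (hA 0) (ih (fun i => A i.succ) (fun i => hA _))
    · intro a b hab
      exact congrFun hab 0
    · intro f
      exact ⟨Fin.cons 0 f, rfl⟩
    · intro b
      constructor
      · intro hb
        refine ⟨b 0, ?_⟩
        funext i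
        refine Fin.cases ?_ (fun i => ?_) i
        · rfl
        · exact (congrFun hb i).symm
      · rintro ⟨a, rfl⟩
        rfl

/-- The lower bound step: if `x` kills `L` and is regular on `N`, then `Ext^i(N, L) ≠ 0` implies
`Ext^{i+1}(N/xN, L) ≠ 0`. -/
lemma ext_step {N Q L : Type u} [AddCommGroup N] [AddCommGroup Q] [AddCommGroup L]
    [Module R N] [Module R Q] [Module R L] (x : R) (g : N →ₗ[R] Q)
    (hx : ∀ u : N, x • u = 0 → u = 0) (hg : Function.Surjective g)
    (h : ∀ b, g b = 0 ↔ ∃ a, x • a = b) (hL : ∀ u : L, x • u = 0) (i : ℕ)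
    (hi : ¬ Subsingleton (Ext.{u} (ModuleCat.of R N) (ModuleCat.of R L) i)) :
    ¬ Subsingleton (Ext.{u} (ModuleCat.of R Q) (ModuleCat.of R L) (i + 1)) := by
  intro hsub
  apply hi
  refine subsingleton_of_forall_eq 0 fun e => ?_
  have h0 : g.comp (LinearMap.lsmul R N x) = 0 := by
    ext a
    exact (h (x • a)).mpr ⟨a, rfl⟩
  have hex : Function.Exact (LinearMap.lsmul R N x) g := fun b => h b
  have hinj : Function.Injective (LinearMap.lsmul R N x) := by
    rw [injective_iff_map_eq_zero]
    exact hx
  let S := ModuleCat.shortComplexOfCompEqZero (LinearMap.lsmul R N x) g h0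
  have hS : S.ShortExact := ModuleCat.shortComplex_shortExact _ hex hinj hg
  have hcomp : hS.extClass.comp e (add_comm 1 i) = 0 := Subsingleton.elim (α := Ext.{u} (ModuleCat.of R Q) (ModuleCat.of R L) (i + 1)) _ _
  obtain ⟨x₂, hx₂⟩ := Ext.contravariant_sequence_exact₁ hS _ e (add_comm 1 i) hcomp
  have hf : S.f = x • 𝟙 (ModuleCat.of R N) := rfl
  have hz : x • (𝟙 (ModuleCat.of R L)) = 0 := by
    ext u
    exact hL u
  rw [← hx₂, hf]
  change (Ext.mk₀ (x • 𝟙 (ModuleCat.of R N))).comp x₂ (zero_add i) = 0
  rw [Ext.mk₀_smul, Ext.smul_comp, Ext.mk₀_id_comp]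
  have h4 : x • x₂ = x₂.comp (Ext.mk₀ (x • 𝟙 (ModuleCat.of R L))) (add_zero i) :=
    Ext.smul_eq_comp_mk₀ x₂ x
  have h5 : x • x₂ = 0 := by
    rw [h4, hz, Ext.mk₀_zero, Ext.comp_zero]
  exact h5

end general

section poly

variable {K : Type u} [Field K] {σ : Type}

/-- `x_v` is a nonzerodivisor modulo the variables in `T`, if `v ∉ T` -/
lemma X_mul_mem {T : Set σ} {v : σ} (hv : v ∉ T) {p : MvPolynomial σ K}
    (h : X v * p ∈ Ideal.span (X '' T : Set (MvPolynomial σ K))) :
    p ∈ Ideal.span (X '' T : Set (MvPolynomial σ K)) := by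
  classical
  rw [mem_ideal_span_X_image] at h ⊢
  intro m hm
  have hm2 : m + Finsupp.single v 1 ∈ (X v * p).support := by
    rw [mem_support_iff, mul_comm, coeff_mul_X]
    exact mem_support_iff.mp hm
  obtain ⟨i, hi, hi2⟩ := h _ hm2
  refine ⟨i, hi, ?_⟩
  have hne : v ≠ i := fun h => hv (h ▸ hi)
  rw [Finsupp.add_apply, Finsupp.single_eq_of_ne hne.symm, add_zero] at hi2
  exact hi2

/-- `S / (x_w : w ∈ T)` -/
abbrev Q (K : Type u) [Field K] (T : Finset σ) : Type u :=
  MvPolynomial σ K ⧸ Ideal.span (X '' (T : Set σ) : Set (MvPolynomial σ K))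

lemma Q_bounds [DecidableEq σ] {L : Type u} [AddCommGroup L] [Module (MvPolynomial σ K) L]
    [Nontrivial L] (hL : ∀ (v : σ) (u : L), (X v : MvPolynomial σ K) • u = 0) (T : Finset σ) :
    PL (MvPolynomial σ K) (Q K T) (T.card + 1) ∧
      ¬ Subsingleton (Ext.{u} (ModuleCat.of (MvPolynomial σ K) (Q K T))
        (ModuleCat.of (MvPolynomial σ K) L) T.card) := by
  induction T using Finset.induction_on with
  | empty =>
    have e : MvPolynomial σ K ≃ₗ[MvPolynomial σ K] Q K (∅ : Finset σ) :=
      (Submodule.quotEquivOfEqBot _ (by simp)).symm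
    refine ⟨PL.equiv e PL.self, ?_⟩
    intro h
    rw [Finset.card_empty] at h
    have h1 := (Ext.homEquiv₀ (X := ModuleCat.of (MvPolynomial σ K) (Q K (∅ : Finset σ)))
      (Y := ModuleCat.of (MvPolynomial σ K) L)).symm.subsingleton
    obtain ⟨u, hu⟩ := exists_ne (0 : L)
    apply hu
    let f : Q K (∅ : Finset σ) →ₗ[MvPolynomial σ K] L :=
      (LinearMap.toSpanSingleton (MvPolynomial σ K) L u).comp e.symm.toLinearMap
    have h2 : ModuleCat.ofHom f = ModuleCat.ofHom 0 := Subsingleton.elim _ _
    have h3 : f = 0 := by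
      refine LinearMap.ext fun x => ?_
      exact congrArg (fun g => g.hom x) h2
    have h4 : f (e 1) = u := by
      simp [f]
    rw [← h4, h3]; rfl
  | insert v T hv ih =>
    obtain ⟨ih1, ih2⟩ := ih
    have hle : Ideal.span (X '' (T : Set σ) : Set (MvPolynomial σ K)) ≤
        Ideal.span (X '' ((insert v T : Finset σ) : Set σ) : Set (MvPolynomial σ K)) := by
      apply Ideal.span_mono
      apply Set.image_mono
      rw [Finset.coe_insert]
      exact Set.subset_insert _ _
    let g : Q K T →ₗ[MvPolynomial σ K] Q K (insert v T) := Submodule.factor hle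
    have hg : Function.Surjective g := Submodule.factor_surjective hle
    have hinj : ∀ u : Q K T, (X v : MvPolynomial σ K) • u = 0 → u = 0 := by
      intro u hu
      obtain ⟨p, rfl⟩ := Ideal.Quotient.mk_surjective u
      have h1 : Ideal.Quotient.mk (Ideal.span (X '' (T : Set σ) : Set (MvPolynomial σ K)))
        (X v * p) = 0 := hu
      rw [Ideal.Quotient.eq_zero_iff_mem] at h1 ⊢
      exact X_mul_mem (by simpa using hv) h1
    have hex : ∀ b, g b = 0 ↔ ∃ a : Q K T, (X v : MvPolynomial σ K) • a = b := by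
      intro b
      obtain ⟨p, rfl⟩ := Ideal.Quotient.mk_surjective b
      have h1 : g (Ideal.Quotient.mk _ p) = Ideal.Quotient.mk _ p := rfl
      rw [h1, Ideal.Quotient.eq_zero_iff_mem, Finset.coe_insert, Set.image_insert_eq,
        Ideal.mem_span_insert]
      constructor
      · rintro ⟨a, z, hz, rfl⟩
        refine ⟨Ideal.Quotient.mk _ a, ?_⟩
        have h2 : Ideal.Quotient.mk (Ideal.span (X '' (T : Set σ) : Set (MvPolynomial σ K)))
          (X v * a) = Ideal.Quotient.mk _ (a * X v + z) := by
          rw [map_add, Ideal.Quotient.eq_zero_iff_mem.mpr hz, add_zero, mul_comm]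
        exact h2
      · rintro ⟨a, ha⟩
        obtain ⟨a, rfl⟩ := Ideal.Quotient.mk_surjective a
        have h2 : Ideal.Quotient.mk (Ideal.span (X '' (T : Set σ) : Set (MvPolynomial σ K)))
          (X v * a) = Ideal.Quotient.mk _ p := ha
        rw [Ideal.Quotient.eq] at h2
        refine ⟨a, p - X v * a, ?_, by ring⟩
        rw [← neg_sub]
        exact neg_mem h2
    rw [Finset.card_insert_of_notMem hv]
    refine ⟨?_, ?_⟩
    · refine PL.right (A := Q K T) (B := Q K T)
        (LinearMap.lsmul (MvPolynomial σ K) (Q K T) (X v)) g ?_ hg hex ih1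
        (ih1.mono (Nat.le_succ _))
      rw [injective_iff_map_eq_zero]
      exact hinj
    · exact ext_step (X v) g hinj hg hex (hL v) _ ih2

end poly

end Pool.Agent.W465.PD
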