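import Pool.Agent.W465.PdA

/-!
Projective dimension of the modules `MM i0 B`.
-/

open CategoryTheory Abelian MvPolynomial H379R3 H379R3.GMod

universe u

noncomputable section

namespace Pool.Agent.W465.PD

variable {K : Type u} [Field K] {c n : ℕ}

/-- `S / (x_w : w ≠ v) ≅ K[x_v]` -/
def eX (v : Fin c × Fin n) :
    Q K (Finset.univ.erase v) ≃ₗ[MvPolynomial (Fin c × Fin n) K] (GX (K := K) v).carrier := by
  classical
  let ρ : MvPolynomial (Fin c × Fin n) K →ₗ[MvPolynomial (Fin c × Fin n) K]
      (GX (K := K) v).carrier :=
    { toFun := fun f => ev v f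
      map_add' := fun f g => map_add (ev v) f g
      map_smul' := fun p f => map_mul (ev v) p f }
  have hs : Function.Surjective ρ := by
    intro f
    have hev : ∀ f : Polynomial K, ev v (Polynomial.aeval (X v) f) = f := by
      intro f
      rw [← Polynomial.aeval_algHom_apply, ev_X, if_pos rfl, Polynomial.aeval_X_left_apply]
    exact ⟨Polynomial.aeval (X v) (f : Polynomial K), hev f⟩
  have hk : LinearMap.ker ρ = Ideal.span (X '' ((Finset.univ.erase v : Finset (Fin c × Fin n)) :
      Set (Fin c × Fin n)) : Set (MvPolynomial (Fin c × Fin n) K)) := by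
    ext p
    rw [LinearMap.mem_ker, mem_ideal_span_X_image]
    change ev v p = 0 ↔ _
    constructor
    · intro h m hm
      by_contra hcon
      push Not at hcon
      have h3 : m = Finsupp.single v (m v) := by
        ext w
        by_cases hw : w = v
        · subst hw; rw [Finsupp.single_eq_same]
        · rw [Finsupp.single_eq_of_ne hw]
          exact hcon w (by simpa using hw)
      rw [mem_support_iff, h3, ← coeff_ev, h, Polynomial.coeff_zero] at hm
      exact hm rfl
    · intro h
      ext k
      rw [coeff_ev, Polynomial.coeff_zero]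
      by_contra hcon
      obtain ⟨i, hi, hi2⟩ := h _ (mem_support_iff.mpr hcon)
      have hiv : i ≠ v := by simpa using hi
      rw [Finsupp.single_eq_of_ne hiv] at hi2
      exact hi2 rfl
  exact (Submodule.quotEquivOfEq _ _ hk.symm).trans (ρ.quotKerEquivOfSurjective hs)

/-- `S / (x_w : all w) ≅ K` -/
def eK : Q K (Finset.univ : Finset (Fin c × Fin n)) ≃ₗ[MvPolynomial (Fin c × Fin n) K]
    (GK (K := K) (σ := Fin c × Fin n)).carrier := by
  classical
  let ρ : MvPolynomial (Fin c × Fin n) K →ₗ[MvPolynomial (Fin c × Fin n) K]
      (GK (K := K) (σ := Fin c × Fin n)).carrier :=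
    { toFun := fun f => constantCoeff (R := K) f
      map_add' := fun f g => map_add constantCoeff f g
      map_smul' := fun p f => map_mul constantCoeff p f }
  have hs : Function.Surjective ρ := fun f => ⟨C (f : K), constantCoeff_C (R := K) _ (f : K)⟩
  have hk : LinearMap.ker ρ = Ideal.span (X '' ((Finset.univ : Finset (Fin c × Fin n)) :
      Set (Fin c × Fin n)) : Set (MvPolynomial (Fin c × Fin n) K)) := by
    ext p
    rw [LinearMap.mem_ker, mem_ideal_span_X_image]
    change constantCoeff p = 0 ↔ _
    constructor
    · intro h m hm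
      by_contra hcon
      push Not at hcon
      have h3 : m = 0 := by
        ext w
        exact hcon w (by simp)
      rw [mem_support_iff, h3] at hm
      exact hm h
    · intro h
      rw [constantCoeff_eq]
      by_contra hcon
      obtain ⟨i, hi, hi2⟩ := h _ (mem_support_iff.mpr hcon)
      exact hi2 rfl
  exact (Submodule.quotEquivOfEq _ _ hk.symm).trans (ρ.quotKerEquivOfSurjective hs)

/-- the underlying scalar -/
def tK (u : (GK (K := K) (σ := Fin c × Fin n)).carrier) : K := u

/-- the underlying polynomials -/
def tX (i0 : Fin c) (g : ∀ j : Fin n, (GX (K := K) (i0, j)).carrier) : Fin n → Polynomial K := g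

lemma GK_kill (v : Fin c × Fin n) (u : (GK (K := K) (σ := Fin c × Fin n)).carrier) :
    (X v : MvPolynomial (Fin c × Fin n) K) • u = 0 := by
  change constantCoeff (X v : MvPolynomial (Fin c × Fin n) K) * tK u = (0 : K)
  rw [constantCoeff_X, zero_mul]

instance : Nontrivial (GK (K := K) (σ := Fin c × Fin n)).carrier :=
  inferInstanceAs (Nontrivial K)

/-- no object with a nonzero `Ext^i` has projective dimension `< i` -/
lemma PL.absurd {R : Type u} [CommRing R] {A L : Type u} [AddCommGroup A] [AddCommGroup L]
    [Module R A] [Module R L] {i : ℕ} (h : PL R A i)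
    (h2 : ¬ Subsingleton (Ext.{u} (ModuleCat.of R A) (ModuleCat.of R L) i)) : False := by
  have : HasProjectiveDimensionLT (ModuleCat.of R A) i := h
  exact h2 (HasProjectiveDimensionLT.subsingleton (ModuleCat.of R A) i i le_rfl _)

lemma card_pos (i0 : Fin c) (hn : 0 < n) : 0 < c * n := Nat.mul_pos i0.pos hn

lemma GX_PL (v : Fin c × Fin n) :
    PL (MvPolynomial (Fin c × Fin n) K) (GX (K := K) v).carrier (c * n) := by
  classical
  have h := (Q_bounds (K := K) (L := (GK (K := K) (σ := Fin c × Fin n)).carrier) GK_kill
    (Finset.univ.erase v)).1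
  rw [Finset.card_erase_add_one (Finset.mem_univ v), Finset.card_univ, Fintype.card_prod,
    Fintype.card_fin, Fintype.card_fin] at h
  exact h.equiv (eX v)

lemma GX_not_PL (v : Fin c × Fin n) :
    ¬ PL (MvPolynomial (Fin c × Fin n) K) (GX (K := K) v).carrier (c * n - 1) := by
  classical
  have h := (Q_bounds (K := K) (L := (GK (K := K) (σ := Fin c × Fin n)).carrier) GK_kill
    (Finset.univ.erase v)).2
  rw [Finset.card_erase_of_mem (Finset.mem_univ v), Finset.card_univ, Fintype.card_prod,
    Fintype.card_fin, Fintype.card_fin] at h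
  intro h2
  exact (h2.equiv (eX v).symm).absurd h

lemma GK_PL : PL (MvPolynomial (Fin c × Fin n) K) (GK (K := K) (σ := Fin c × Fin n)).carrier
    (c * n + 1) := by
  classical
  have h := (Q_bounds (K := K) (L := (GK (K := K) (σ := Fin c × Fin n)).carrier) GK_kill
    Finset.univ).1
  rw [Finset.card_univ, Fintype.card_prod, Fintype.card_fin, Fintype.card_fin] at h
  exact h.equiv eK

lemma GK_not_PL : ¬ PL (MvPolynomial (Fin c × Fin n) K)
    (GK (K := K) (σ := Fin c × Fin n)).carrier (c * n) := by
  classical
  have h := (Q_bounds (K := K) (L := (GK (K := K) (σ := Fin c × Fin n)).carrier) GK_kill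
    Finset.univ).2
  rw [Finset.card_univ, Fintype.card_prod, Fintype.card_fin, Fintype.card_fin] at h
  intro h2
  exact (h2.equiv eK.symm).absurd h

/-- a square matrix that is not surjective is not injective -/
lemma not_inj {B : Fin n → Fin n → K}
    (h : ¬ Function.Surjective (fun (a : Fin n → K) (j : Fin n) => ∑ i, a i * B i j)) :
    ¬ Function.Injective (fun (a : Fin n → K) (j : Fin n) => ∑ i, a i * B i j) := by
  let f : (Fin n → K) →ₗ[K] (Fin n → K) :=
    { toFun := fun a j => ∑ i, a i * B i j
      map_add' := fun a b => by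
        funext j
        simp only [Pi.add_apply, add_mul, Finset.sum_add_distrib]
      map_smul' := fun t a => by
        funext j
        simp only [Pi.smul_apply, smul_eq_mul, RingHom.id_apply, Finset.mul_sum, mul_assoc] }
  intro hi
  exact h ((LinearMap.injective_iff_surjective (f := f)).mp hi)

variable (i0 : Fin c) (B : Fin n → Fin n → K)

/-- the nonsingular case: `M ≅ ∏ K[x_j]` -/
lemma MM_bij (hn : 0 < n)
    (hB : Function.Bijective (fun (a : Fin n → K) (j : Fin n) => ∑ i, a i * B i j)) :
    PL (MvPolynomial (Fin c × Fin n) K) (MM i0 B).carrier (c * n) ∧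
      ¬ PL (MvPolynomial (Fin c × Fin n) K) (MM i0 B).carrier (c * n - 1) := by
  classical
  let φ : (MM i0 B).carrier →ₗ[MvPolynomial (Fin c × Fin n) K]
      (∀ j : Fin n, (GX (K := K) (i0, j)).carrier) :=
    { toFun := fun u => u.1.2
      map_add' := fun _ _ => rfl
      map_smul' := fun _ _ => rfl }
  have hφ : Function.Bijective φ := by
    constructor
    · intro u v huv
      have huv' : fg i0 u.1 = fg i0 v.1 := huv
      apply Subtype.ext
      refine amb_ext i0 ?_ huv'
      apply hB.1
      funext j
      have e1 := u.2 j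
      have e2 := v.2 j
      rw [huv'] at e1
      exact e1.symm.trans e2
    · intro g
      let g' : Fin n → Polynomial K := g
      obtain ⟨a, ha⟩ := hB.2 (fun j => (g' j).coeff 0)
      let w : (amb K n i0).carrier := (a, g)
      have hw : w ∈ Msub i0 B := by
        intro j
        exact (congrFun ha j).symm
      exact ⟨⟨w, hw⟩, rfl⟩
  let e := LinearEquiv.ofBijective φ hφ
  refine ⟨?_, ?_⟩
  · exact (PL.pi (fun j : Fin n => (GX (K := K) (i0, j)).carrier)
      (fun j => GX_PL (i0, j))).equiv e.symm
  · intro h
    have h1 := h.equiv e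
    let j0 : Fin n := ⟨0, hn⟩
    refine GX_not_PL (K := K) (i0, j0) (h1.retract
      (LinearMap.single _ (fun j : Fin n => (GX (K := K) (i0, j)).carrier) j0)
      (LinearMap.proj j0) ?_)
    intro a
    exact Pi.single_eq_same (M := fun j : Fin n => (GX (K := K) (i0, j)).carrier) j0 a

/-- the singular case: `K` is a direct summand -/
lemma MM_sing
    (hB : ¬ Function.Injective (fun (a : Fin n → K) (j : Fin n) => ∑ i, a i * B i j)) :
    PL (MvPolynomial (Fin c × Fin n) K) (MM i0 B).carrier (c * n + 1) ∧
      ¬ PL (MvPolynomial (Fin c × Fin n) K) (MM i0 B).carrier (c * n) := by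
  classical
  refine ⟨?_, ?_⟩
  · let j : (∀ j : Fin n, (GX (K := K) (i0, j)).carrier)
        →ₗ[MvPolynomial (Fin c × Fin n) K] (MM i0 B).carrier :=
      { toFun := fun g => ⟨((0, fun j => Polynomial.X * tX i0 g j) :
          (Fin n → K) × (Fin n → Polynomial K)), by
            intro j
            change Polynomial.coeff (Polynomial.X * _) 0 = ∑ i, (0 : K) * B i j
            simp⟩
        map_add' := fun g g' => by
          apply Subtype.ext
          refine amb_ext i0 ?_ ?_
          · exact (add_zero (0 : Fin n → K)).symm
          · funext j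
            exact mul_add (Polynomial.X : Polynomial K) (tX i0 g j) (tX i0 g' j)
        map_smul' := fun p g => by
          apply Subtype.ext
          refine amb_ext i0 ?_ ?_
          · funext i
            exact (mul_zero (constantCoeff p)).symm
          · funext j
            exact mul_left_comm (Polynomial.X : Polynomial K) (ev (i0, j) p) (tX i0 g j) }
    let q : (MM i0 B).carrier →ₗ[MvPolynomial (Fin c × Fin n) K]
        (∀ _ : Fin n, (GK (K := K) (σ := Fin c × Fin n)).carrier) :=
      { toFun := fun u => u.1.1
        map_add' := fun _ _ => rfl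
        map_smul' := fun _ _ => rfl }
    refine PL.mid j q ?_ ?_ ?_
      ((PL.pi _ (fun j => GX_PL (i0, j))).mono (Nat.le_succ _)) (PL.pi _ (fun _ => GK_PL))
    · intro g g' hg
      funext i
      have h3 : fg i0 (j g).1 i = fg i0 (j g').1 i := by rw [hg]
      change Polynomial.X * tX i0 g i = Polynomial.X * tX i0 g' i at h3
      have h4 : tX i0 g i = tX i0 g' i := mul_left_cancel₀ Polynomial.X_ne_zero h3
      exact h4
    · intro a
      let a' : Fin n → K := a
      refine ⟨⟨((a', fun j => Polynomial.C (∑ i, a' i * B i j)) :
        (Fin n → K) × (Fin n → Polynomial K)), ?_⟩, rfl⟩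
      intro j
      exact Polynomial.coeff_C_zero
    · intro u
      constructor
      · intro hu
        have hu' : fa i0 u.1 = 0 := hu
        refine ⟨fun i => Polynomial.divX (fg i0 u.1 i), ?_⟩
        apply Subtype.ext
        refine amb_ext i0 ?_ ?_
        · exact hu'.symm
        · funext i
          change Polynomial.X * Polynomial.divX (fg i0 u.1 i) = fg i0 u.1 i
          have h3 := Polynomial.divX_mul_X_add (fg i0 u.1 i)
          rw [u.2 i, hu'] at h3
          simp only [Pi.zero_apply, zero_mul, Finset.sum_const_zero, Polynomial.C_0,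
            add_zero] at h3
          rw [mul_comm]; exact h3
      · rintro ⟨g, rfl⟩
        rfl
  · intro h
    apply GK_not_PL (K := K) (c := c) (n := n)
    -- a nonzero vector in the kernel
    obtain ⟨a, ha0, ha⟩ : ∃ a : Fin n → K, a ≠ 0 ∧ ∀ j, ∑ i, a i * B i j = 0 := by
      rw [Function.Injective] at hB
      push Not at hB
      obtain ⟨a, b, hab, hne⟩ := hB
      refine ⟨a - b, sub_ne_zero.mpr hne, fun j => ?_⟩
      have h1 := congrFun hab j
      simp only [Pi.sub_apply, sub_mul, Finset.sum_sub_distrib]
      rw [h1, sub_self]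
    obtain ⟨k, hk⟩ : ∃ k, a k ≠ 0 := by
      by_contra hcon
      push Not at hcon
      exact ha0 (funext hcon)
    let ι : (GK (K := K) (σ := Fin c × Fin n)).carrier →ₗ[MvPolynomial (Fin c × Fin n) K]
        (MM i0 B).carrier :=
      { toFun := fun t => ⟨((fun i => tK t * a i, 0) : (Fin n → K) × (Fin n → Polynomial K)), by
          intro j
          change (0 : Polynomial K).coeff 0 = ∑ i, (tK t * a i) * B i j
          rw [Polynomial.coeff_zero]
          have h1 := ha j
          simp only [mul_assoc, ← Finset.mul_sum, h1, mul_zero]⟩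
        map_add' := fun s t => by
          apply Subtype.ext
          refine amb_ext i0 ?_ ?_
          · funext i
            exact add_mul (tK s) (tK t) (a i)
          · exact (add_zero (0 : Fin n → Polynomial K)).symm
        map_smul' := fun p t => by
          apply Subtype.ext
          refine amb_ext i0 ?_ ?_
          · funext i
            exact mul_assoc (constantCoeff p) (tK t) (a i)
          · funext j
            exact (mul_zero (ev (i0, j) p)).symm }
    let ρ : (MM i0 B).carrier →ₗ[MvPolynomial (Fin c × Fin n) K]
        (GK (K := K) (σ := Fin c × Fin n)).carrier :=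
      { toFun := fun u => (fa i0 u.1 k * (a k)⁻¹ : K)
        map_add' := fun u v => add_mul (fa i0 u.1 k) (fa i0 v.1 k) (a k)⁻¹
        map_smul' := fun p u => mul_assoc (constantCoeff p) (fa i0 u.1 k) (a k)⁻¹ }
    refine h.retract ι ρ fun t => ?_
    have h5 : (tK t * a k) * (a k)⁻¹ = tK t := by
      rw [mul_assoc, mul_inv_cancel₀ hk, mul_one]
    exact h5

end Pool.Agent.W465.PD
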