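import Pool.Agent.W465.PdDefs
import Pool.Agent.W465.PdB

/-!
From the graded modules to the modules of the statement, and the failure of eventual linearity.
-/

open CategoryTheory Abelian MvPolynomial H379R3 H379R3.GMod

universe u

noncomputable section

namespace Pool.Agent.W465.OIPd

variable {K : Type u} [Field K] {c : ℕ}

/-- forget the grading -/
def ofGradedOI (M : H379R3.OIReg.GradedOIModule K c) : OIModule K c where
  obj := M.obj
  map := M.map
  map_id := M.map_id
  map_comp := M.map_comp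
  map_smul := M.map_smul

/-- forget the grading -/
def ofGradedFI (M : H379R3.OIReg.GradedFIModule K c) : FIModule K c where
  obj := M.obj
  map := M.map
  map_id := M.map_id
  map_comp := M.map_comp
  map_smul := M.map_smul

lemma finGen_ofGradedOI (M : H379R3.OIReg.GradedOIModule K c) (h : M.FinGen) :
    (ofGradedOI M).FinGen := by
  obtain ⟨r, w, q, -, hspan⟩ := h
  refine ⟨r, w, q, fun N hN hq n => ?_⟩
  have h2 : Submodule.span (OIReg.PolyAlg K c n)
      {u | ∃ k ε, u = M.map ε (q k)} ≤ N n := by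
    refine Submodule.span_le.mpr ?_
    rintro _ ⟨k, ε, rfl⟩
    exact hN _ _ ε _ (hq k)
  exact eq_top_iff.mpr ((hspan n).symm.le.trans h2)

lemma finGen_ofGradedFI (M : H379R3.OIReg.GradedFIModule K c) (h : M.FinGen) :
    (ofGradedFI M).FinGen := by
  obtain ⟨r, w, q, -, hspan⟩ := h
  refine ⟨r, w, q, fun N hN hq n => ?_⟩
  have h2 : Submodule.span (OIReg.PolyAlg K c n)
      {u | ∃ k ε, u = M.map ε (q k)} ≤ N n := by
    refine Submodule.span_le.mpr ?_
    rintro _ ⟨k, ε, rfl⟩
    exact hN _ _ ε _ (hq k)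
  exact eq_top_iff.mpr ((hspan n).symm.le.trans h2)

/-- The projective dimension from the two bounds. -/
lemma pd_eq {R : Type u} [CommRing R] {A : Type u} [AddCommGroup A] [Module R A] {d : ℕ}
    (h1 : PD.PL R A (d + 1)) (h2 : ¬ PD.PL R A d) :
    projectiveDimension (ModuleCat.of R A) = (d : WithBot ℕ∞) := by
  apply le_antisymm
  · rw [projectiveDimension_le_iff]
    exact h1
  · rw [projectiveDimension_ge_iff]
    exact h2

/-- A function with the values `c n - 1` and `c n`, both taken for arbitrarily large `n`, is not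
eventually linear. -/
lemma not_linear (hc : 1 ≤ c) (f : ℕ → WithBot ℕ∞) (s : ℕ → Prop) [DecidablePred s]
    (hf : ∀ n : ℕ, 1 ≤ n → f n = ((if s n then c * n - 1 else c * n : ℕ) : WithBot ℕ∞))
    (h0 : ∀ N, ∃ n, N ≤ n ∧ s n) (h1 : ∀ N, ∃ n, N ≤ n ∧ ¬ s n) : ¬ EventuallyLinear f := by
  rintro ⟨A, B, n₀, h⟩
  -- the difference `g n = A n + B - c n` is linear with values in `{-1, 0}`
  have key : ∀ n : ℕ, n₀ + 1 ≤ n → (A - c) * n + B = if s n then -1 else 0 := by
    intro n hn
    obtain ⟨d, hd, hd2⟩ := h n (by omega)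
    rw [hf n (by omega)] at hd
    have hd3 : (if s n then c * n - 1 else c * n : ℕ) = d := by exact_mod_cast hd
    have hpos : 1 ≤ c * n := Nat.mul_pos hc (by omega)
    have e : (A - c) * (n : ℤ) + B = (d : ℤ) - c * n := by rw [hd2]; ring
    rw [e, ← hd3]
    split_ifs with h'
    · rw [Nat.cast_sub hpos]; push_cast; ring
    · push_cast; ring
  have hA : A - c = 0 := by
    have e1 := key (n₀ + 1) le_rfl
    have e2 := key (n₀ + 3) (by omega)
    push_cast at e1 e2
    have e3 : (A - c) * ((n₀ : ℤ) + 3) + B - ((A - c) * ((n₀ : ℤ) + 1) + B) = 2 * (A - c) := by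
      ring
    rw [e1, e2] at e3
    split_ifs at e3 <;> omega
  rw [hA] at key
  obtain ⟨n, hn, hs⟩ := h0 (n₀ + 1)
  obtain ⟨m, hm, hs'⟩ := h1 (n₀ + 1)
  have e1 := key n hn
  have e2 := key m hm
  rw [if_pos hs] at e1
  rw [if_neg hs'] at e2
  omega

end Pool.Agent.W465.OIPd
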