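import Mathlib

/-!
OI- and FI-modules over `P = (X^1)^{⊗ c}`, `P_n = K[x_{i,j} : i ∈ [c], j ∈ [n]]`, and the
projective dimensions of their values.

The objects of OI and FI are the sets `[n]`, modelled by `Fin n`; morphisms of OI are the strictly
increasing maps `Fin m ↪o Fin n`, morphisms of FI are the injections `Fin m ↪ Fin n`.
-/

open MvPolynomial

universe u

namespace Pool.Agent.W465.OIPd

/-- `P_n = K[x_{i,j} : i ∈ [c], j ∈ [n]]`. -/
abbrev P (K : Type u) [Field K] (c n : ℕ) : Type u := MvPolynomial (Fin c × Fin n) K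

/-- The `K`-algebra map `P(ε) : P_m → P_n`, `x_{i,j} ↦ x_{i,ε(j)}`. -/
noncomputable def P.map (K : Type u) [Field K] (c : ℕ) {m n : ℕ} (ε : Fin m → Fin n) :
    P K c m →ₐ[K] P K c n :=
  rename (Prod.map id ε)

/-- An OI-module over `P`: `P_n`-modules `M_n` with additive maps `M(ε) : M_m → M_n` for the
strictly increasing `ε : [m] → [n]`, functorial, with `M(ε)(p u) = P(ε)(p) M(ε)(u)` (so they are
`K`-linear). -/
structure OIModule (K : Type u) [Field K] (c : ℕ) where
  /-- the value at `[n]` -/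
  obj : ℕ → Type u
  [addCommGroup : ∀ n, AddCommGroup (obj n)]
  [module : ∀ n, Module (P K c n) (obj n)]
  /-- the structure map of a strictly increasing map -/
  map : ∀ {m n : ℕ}, (Fin m ↪o Fin n) → obj m →+ obj n
  map_id : ∀ (n : ℕ) (u : obj n), map (RelEmbedding.refl (fun x1 x2 : Fin n => x1 ≤ x2)) u = u
  map_comp : ∀ {l m n : ℕ} (ε : Fin l ↪o Fin m) (δ : Fin m ↪o Fin n) (u : obj l),
    map (ε.trans δ) u = map δ (map ε u)
  map_smul : ∀ {m n : ℕ} (ε : Fin m ↪o Fin n) (p : P K c m) (u : obj m),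
    map ε (p • u) = P.map K c ε p • map ε u

/-- An FI-module over `P`: the same with all injections `ε : [m] → [n]`. -/
structure FIModule (K : Type u) [Field K] (c : ℕ) where
  /-- the value at `[n]` -/
  obj : ℕ → Type u
  [addCommGroup : ∀ n, AddCommGroup (obj n)]
  [module : ∀ n, Module (P K c n) (obj n)]
  /-- the structure map of an injection -/
  map : ∀ {m n : ℕ}, (Fin m ↪ Fin n) → obj m →+ obj n
  map_id : ∀ (n : ℕ) (u : obj n), map (Function.Embedding.refl (Fin n)) u = u
  map_comp : ∀ {l m n : ℕ} (ε : Fin l ↪ Fin m) (δ : Fin m ↪ Fin n) (u : obj l),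
    map (ε.trans δ) u = map δ (map ε u)
  map_smul : ∀ {m n : ℕ} (ε : Fin m ↪ Fin n) (p : P K c m) (u : obj m),
    map ε (p • u) = P.map K c ε p • map ε u

attribute [instance] OIModule.addCommGroup OIModule.module FIModule.addCommGroup FIModule.module

variable {K : Type u} [Field K] {c : ℕ}

/-- Finite generation: there are finitely many `q_k ∈ M_{w_k}` that lie in no proper submodule of
`M`, a submodule being a family of submodules `N_n ⊆ M_n` with `M(ε)(N_m) ⊆ N_n` for all
`ε : [m] → [n]`. -/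
def OIModule.FinGen (M : OIModule K c) : Prop :=
  ∃ (r : ℕ) (w : Fin r → ℕ) (q : ∀ k, M.obj (w k)),
    ∀ N : (∀ n, Submodule (P K c n) (M.obj n)),
      (∀ (m n : ℕ) (ε : Fin m ↪o Fin n) (u : M.obj m), u ∈ N m → M.map ε u ∈ N n) →
      (∀ k, q k ∈ N (w k)) → ∀ n, N n = ⊤

/-- Finite generation: there are finitely many `q_k ∈ M_{w_k}` that lie in no proper submodule of
`M`, a submodule being a family of submodules `N_n ⊆ M_n` with `M(ε)(N_m) ⊆ N_n` for all
`ε : [m] → [n]`. -/
def FIModule.FinGen (M : FIModule K c) : Prop :=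
  ∃ (r : ℕ) (w : Fin r → ℕ) (q : ∀ k, M.obj (w k)),
    ∀ N : (∀ n, Submodule (P K c n) (M.obj n)),
      (∀ (m n : ℕ) (ε : Fin m ↪ Fin n) (u : M.obj m), u ∈ N m → M.map ε u ∈ N n) →
      (∀ k, q k ∈ N (w k)) → ∀ n, N n = ⊤

/-- The projective dimension of `M_n` over `P_n` (Mathlib's projective dimension of an object of
the category of `P_n`-modules). -/
noncomputable def OIModule.pd (M : OIModule K c) (n : ℕ) : WithBot ℕ∞ :=
  CategoryTheory.projectiveDimension (ModuleCat.of (P K c n) (M.obj n))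

/-- The projective dimension of `M_n` over `P_n` (Mathlib's projective dimension of an object of
the category of `P_n`-modules). -/
noncomputable def FIModule.pd (M : FIModule K c) (n : ℕ) : WithBot ℕ∞ :=
  CategoryTheory.projectiveDimension (ModuleCat.of (P K c n) (M.obj n))

/-- `f` is eventually linear: for some integers `A`, `B` the value `f n` is the integer `A n + B`
for all large `n`. -/
def EventuallyLinear (f : ℕ → WithBot ℕ∞) : Prop :=
  ∃ A B : ℤ, ∃ n₀ : ℕ, ∀ n : ℕ, n₀ ≤ n → ∃ d : ℕ, f n = (d : WithBot ℕ∞) ∧ (d : ℤ) = A * n + B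

end Pool.Agent.W465.OIPd
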