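import Pool.Agent.W792.WA.Stm

/-! WA-ACI: Stieltjes inversion with L1 convergence of the boundary values. -/

set_option autoImplicit false

namespace Pool.Agent.W465.WAAci
open MeasureTheory Filter Set
open scoped Topology ENNReal

noncomputable section

/-- Poisson kernel -/
def P (η t E : ℝ) : ℝ := η / ((t - E) ^ 2 + η ^ 2)

lemma P_nonneg {η : ℝ} (hη : 0 < η) (t E : ℝ) : 0 ≤ P η t E := by unfold P; positivity

lemma P_le {η : ℝ} (hη : 0 < η) (t E : ℝ) : P η t E ≤ 1 / η := by
  unfold P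
  rw [div_le_div_iff₀ (by positivity) hη]
  nlinarith [sq_nonneg (t - E)]

lemma P_cont {η : ℝ} (hη : 0 < η) : Continuous fun q : ℝ × ℝ => P η q.1 q.2 := by
  unfold P
  refine continuous_const.div (by fun_prop) (fun q => ?_)
  positivity

lemma P_contE {η : ℝ} (hη : 0 < η) (t : ℝ) : Continuous fun E : ℝ => P η t E :=
  (P_cont hη).comp (by fun_prop : Continuous fun E : ℝ => (t, E))

lemma P_contt {η : ℝ} (hη : 0 < η) (E : ℝ) : Continuous fun t : ℝ => P η t E :=
  (P_cont hη).comp (by fun_prop : Continuous fun t : ℝ => (t, E))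

/-- Poisson integral -/
def G (μ : Measure ℝ) (η E : ℝ) : ℝ := ∫ t, P η t E ∂μ

lemma integrable_P (μ : Measure ℝ) [IsFiniteMeasure μ] {η : ℝ} (hη : 0 < η) (E : ℝ) :
    Integrable (fun t => P η t E) μ := by
  refine Integrable.of_bound (P_contt hη E).aestronglyMeasurable (1 / η)
    (ae_of_all _ fun t => ?_)
  rw [Real.norm_of_nonneg (P_nonneg hη t E)]
  exact P_le hη t E

lemma im_eq (μ : Measure ℝ) [IsFiniteMeasure μ] {η : ℝ} (hη : 0 < η) (E : ℝ) :
    (∫ t : ℝ, 1 / ((t : ℂ) - ⟨E, η⟩) ∂μ).im = G μ η E := by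
  have hne : ∀ t : ℝ, (t : ℂ) - ⟨E, η⟩ ≠ 0 := by
    intro t h
    have h1 := congrArg Complex.im h
    simp at h1
    exact hη.ne' h1
  have hint : Integrable (fun t : ℝ => 1 / ((t : ℂ) - ⟨E, η⟩)) μ := by
    refine Integrable.of_bound (Continuous.aestronglyMeasurable ?_) (1 / η)
      (ae_of_all _ fun t => ?_)
    · exact continuous_const.div (by fun_prop) hne
    · rw [norm_div, norm_one]
      apply one_div_le_one_div_of_le hη
      have h1 := Complex.abs_im_le_norm ((t : ℂ) - ⟨E, η⟩)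
      simp only [Complex.sub_im, Complex.ofReal_im, zero_sub, abs_neg] at h1
      rwa [abs_of_pos hη] at h1
  have h1 := Complex.imCLM.integral_comp_comm hint
  have h2 : (∫ t : ℝ, 1 / ((t : ℂ) - ⟨E, η⟩) ∂μ).im
      = Complex.imCLM (∫ t : ℝ, 1 / ((t : ℂ) - ⟨E, η⟩) ∂μ) := rfl
  rw [h2, ← h1]
  unfold G
  apply integral_congr_ae
  refine ae_of_all _ fun t => ?_
  change (1 / ((t : ℂ) - ⟨E, η⟩)).im = P η t E
  rw [one_div, Complex.inv_im, Complex.normSq_apply]
  simp only [Complex.sub_im, Complex.ofReal_im, zero_sub, Complex.sub_re, Complex.ofReal_re,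
    neg_neg]
  unfold P
  congr 1
  ring

/-- the Poisson integral as a lower integral -/
def F (μ : Measure ℝ) (η E : ℝ) : ℝ≥0∞ := ∫⁻ t, ENNReal.ofReal (P η t E) ∂μ

lemma F_eq (μ : Measure ℝ) [IsFiniteMeasure μ] {η : ℝ} (hη : 0 < η) (E : ℝ) :
    ENNReal.ofReal (G μ η E) = F μ η E :=
  ofReal_integral_eq_lintegral_ofReal (integrable_P μ hη E) (ae_of_all _ fun t => P_nonneg hη t E)

lemma G_nonneg (μ : Measure ℝ) {η : ℝ} (hη : 0 < η) (E : ℝ) : 0 ≤ G μ η E :=
  integral_nonneg fun t => P_nonneg hη t E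

lemma F_meas (μ : Measure ℝ) [IsFiniteMeasure μ] {η : ℝ} (hη : 0 < η) : Measurable (F μ η) := by
  unfold F
  exact Measurable.lintegral_prod_left'
    (f := fun q : ℝ × ℝ => ENNReal.ofReal (P η q.1 q.2)) (P_cont hη).measurable.ennreal_ofReal

lemma G_meas (μ : Measure ℝ) [IsFiniteMeasure μ] {η : ℝ} (hη : 0 < η) : Measurable (G μ η) := by
  have h : G μ η = fun E => (F μ η E).toReal := by
    funext E
    rw [← F_eq μ hη, ENNReal.toReal_ofReal (G_nonneg μ hη E)]
  rw [h]
  exact (F_meas μ hη).ennreal_toReal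

lemma G_le (μ : Measure ℝ) [IsFiniteMeasure μ] {η : ℝ} (hη : 0 < η) (E : ℝ) :
    G μ η E ≤ 1 / η * μ.real univ := by
  unfold G
  have h1 : ∫ t, P η t E ∂μ ≤ ∫ _t, 1 / η ∂μ :=
    integral_mono (integrable_P μ hη E) (integrable_const _) (fun t => P_le hη t E)
  rw [integral_const, smul_eq_mul, mul_comm] at h1
  exact h1

/-- the integral of the Poisson kernel over an interval -/
lemma P_int {η : ℝ} (hη : 0 < η) (t : ℝ) {c d : ℝ} (hcd : c < d) :
    ∫⁻ E in Ioo c d, ENNReal.ofReal (P η t E)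
      = ENNReal.ofReal (Real.arctan ((d - t) / η) - Real.arctan ((c - t) / η)) := by
  have hint : IntegrableOn (fun E => P η t E) (Ioo c d) :=
    ((P_contE hη t).continuousOn.integrableOn_Icc).mono_set Ioo_subset_Icc_self
  rw [← ofReal_integral_eq_lintegral_ofReal hint (ae_of_all _ fun E => P_nonneg hη t E)]
  congr 1
  rw [← integral_Ioc_eq_integral_Ioo, ← intervalIntegral.integral_of_le hcd.le]
  apply intervalIntegral.integral_eq_sub_of_hasDerivAt (f := fun E => Real.arctan ((E - t) / η))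
  · intro E _
    have h1 : HasDerivAt (fun E : ℝ => (E - t) / η) (1 / η) E :=
      ((hasDerivAt_id E).sub_const t).div_const η
    have h2 := h1.arctan
    have h3 : P η t E = 1 / (1 + ((E - t) / η) ^ 2) * (1 / η) := by
      unfold P
      field_simp
      ring
    rw [h3]
    exact h2
  · exact (P_contE hη t).intervalIntegrable _ _

lemma F_int (μ : Measure ℝ) [IsFiniteMeasure μ] {η : ℝ} (hη : 0 < η) {c d : ℝ} (hcd : c < d) :
    ∫⁻ E in Ioo c d, F μ η E
      = ∫⁻ t, ENNReal.ofReal (Real.arctan ((d - t) / η) - Real.arctan ((c - t) / η)) ∂μ := by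
  unfold F
  rw [lintegral_lintegral_swap]
  · exact lintegral_congr fun t => P_int hη t hcd
  · have h : Measurable (Function.uncurry fun (E t : ℝ) => ENNReal.ofReal (P η t E)) :=
      ((P_cont hη).comp continuous_swap).measurable.ennreal_ofReal
    exact h.aemeasurable

lemma arctan_lim {η : ℕ → ℝ} (hη : ∀ n, 0 < η n) (hη0 : Tendsto η atTop (𝓝 0)) (x : ℝ) :
    Tendsto (fun n => Real.arctan (x / η n)) atTop (𝓝 (Real.pi / 2 * Real.sign x)) := by
  have hinv : Tendsto (fun n => (η n)⁻¹) atTop atTop := by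
    apply Filter.Tendsto.inv_tendsto_nhdsGT_zero
    rw [tendsto_nhdsWithin_iff]
    exact ⟨hη0, Eventually.of_forall hη⟩
  rcases lt_trichotomy x 0 with hx | hx | hx
  · rw [Real.sign_of_neg hx, mul_neg, mul_one]
    have h1 : Tendsto (fun n => x / η n) atTop atBot := by
      simp_rw [div_eq_mul_inv]
      exact hinv.const_mul_atTop_of_neg hx
    exact (Real.tendsto_arctan_atBot.mono_right nhdsWithin_le_nhds).comp h1
  · subst hx
    simp
  · rw [Real.sign_of_pos hx, mul_one]
    have h1 : Tendsto (fun n => x / η n) atTop atTop := by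
      simp_rw [div_eq_mul_inv]
      exact hinv.const_mul_atTop hx
    exact (Real.tendsto_arctan_atTop.mono_right nhdsWithin_le_nhds).comp h1

/-- the limit weight -/
def W (c d t : ℝ) : ℝ≥0∞ := ENNReal.ofReal (Real.pi / 2 * Real.sign (d - t)
  - Real.pi / 2 * Real.sign (c - t))

lemma lim1 (μ : Measure ℝ) [IsFiniteMeasure μ] {η : ℕ → ℝ} (hη : ∀ n, 0 < η n)
    (hη0 : Tendsto η atTop (𝓝 0)) {c d : ℝ} (hcd : c < d) :
    Tendsto (fun n => ∫⁻ E in Ioo c d, F μ (η n) E) atTop (𝓝 (∫⁻ t, W c d t ∂μ)) := by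
  simp_rw [fun n => F_int μ (hη n) hcd]
  refine tendsto_lintegral_of_dominated_convergence (fun _ => ENNReal.ofReal Real.pi)
    (fun n => ?_) (fun n => ae_of_all _ fun t => ?_) ?_ (ae_of_all _ fun t => ?_)
  · have h : Continuous fun t => Real.arctan ((d - t) / η n) - Real.arctan ((c - t) / η n) := by
      fun_prop
    exact h.measurable.ennreal_ofReal
  · apply ENNReal.ofReal_le_ofReal
    have h1 := Real.arctan_lt_pi_div_two ((d - t) / η n)
    have h2 := Real.neg_pi_div_two_lt_arctan ((c - t) / η n)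
    linarith
  · rw [lintegral_const]
    exact ENNReal.mul_ne_top ENNReal.ofReal_ne_top (measure_ne_top _ _)
  · exact ENNReal.tendsto_ofReal ((arctan_lim hη hη0 (d - t)).sub (arctan_lim hη hη0 (c - t)))

/-- the limit density, up to the factor `π` -/
def ell (μ : Measure ℝ) (η : ℕ → ℝ) (E : ℝ) : ℝ≥0∞ := limsup (fun n => F μ (η n) E) atTop

lemma ell_meas (μ : Measure ℝ) [IsFiniteMeasure μ] {η : ℕ → ℝ} (hη : ∀ n, 0 < η n) :
    Measurable (ell μ η) := by
  unfold ell
  exact Measurable.limsup fun n => F_meas μ (hη n)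

/-- the dominating function -/
def bd (μ : Measure ℝ) (η : ℕ → ℝ) (E : ℝ) : ℝ≥0∞ :=
  F μ (η 0) E + ∑' n, ENNReal.ofReal |G μ (η (n + 1)) E - G μ (η n) E|

lemma bd_fin (μ : Measure ℝ) [IsFiniteMeasure μ] {η : ℕ → ℝ} (hη : ∀ n, 0 < η n) {a b : ℝ}
    (hsum : Summable fun n => ∫ E in Icc a b, |G μ (η (n + 1)) E - G μ (η n) E|) :
    ∫⁻ E in Icc a b, bd μ η E ≠ ∞ := by
  unfold bd
  have hm : ∀ n, Measurable fun E => |G μ (η (n + 1)) E - G μ (η n) E| := fun n =>
    ((G_meas μ (hη (n + 1))).sub (G_meas μ (hη n))).abs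
  rw [lintegral_add_left (F_meas μ (hη 0)),
    lintegral_tsum fun n => (hm n).ennreal_ofReal.aemeasurable]
  refine ENNReal.add_ne_top.2 ⟨?_, ?_⟩
  · have h1 : ∫⁻ E in Icc a b, F μ (η 0) E ≤
        ∫⁻ _E in Icc a b, ENNReal.ofReal (1 / η 0 * μ.real univ) := by
      apply lintegral_mono
      intro E
      change F μ (η 0) E ≤ _
      rw [← F_eq μ (hη 0)]
      exact ENNReal.ofReal_le_ofReal (G_le μ (hη 0) E)
    refine ne_top_of_le_ne_top ?_ h1
    rw [lintegral_const, Measure.restrict_apply_univ, Real.volume_Icc]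
    exact ENNReal.mul_ne_top ENNReal.ofReal_ne_top ENNReal.ofReal_ne_top
  · have h2 : ∀ n, ∫⁻ E in Icc a b, ENNReal.ofReal |G μ (η (n + 1)) E - G μ (η n) E|
        = ENNReal.ofReal (∫ E in Icc a b, |G μ (η (n + 1)) E - G μ (η n) E|) := by
      intro n
      rw [ofReal_integral_eq_lintegral_ofReal _ (ae_of_all _ fun E => abs_nonneg _)]
      refine Integrable.of_bound (hm n).aestronglyMeasurable
        (1 / η (n + 1) * μ.real univ + 1 / η n * μ.real univ) (ae_of_all _ fun E => ?_)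
      rw [Real.norm_eq_abs, abs_abs, abs_le]
      have h3 := G_le μ (hη (n + 1)) E
      have h4 := G_le μ (hη n) E
      have h5 := G_nonneg μ (hη (n + 1)) E
      have h6 := G_nonneg μ (hη n) E
      constructor <;> linarith
    simp_rw [h2]
    exact hsum.tsum_ofReal_ne_top

lemma F_le_bd (μ : Measure ℝ) [IsFiniteMeasure μ] {η : ℕ → ℝ} (hη : ∀ n, 0 < η n) (n : ℕ)
    (E : ℝ) : F μ (η n) E ≤ bd μ η E := by
  have h : ∀ n, F μ (η n) E ≤ F μ (η 0) E +
      ∑ k ∈ Finset.range n, ENNReal.ofReal |G μ (η (k + 1)) E - G μ (η k) E| := by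
    intro n
    induction n with
    | zero => simp
    | succ n ih =>
      rw [Finset.sum_range_succ, ← add_assoc]
      refine le_trans ?_ (add_le_add_left ih _)
      rw [← F_eq μ (hη (n + 1)), ← F_eq μ (hη n), ← ENNReal.ofReal_add (G_nonneg μ (hη n) E)
        (abs_nonneg _)]
      apply ENNReal.ofReal_le_ofReal
      have := le_abs_self (G μ (η (n + 1)) E - G μ (η n) E)
      linarith
  exact (h n).trans (add_le_add_right (ENNReal.sum_le_tsum _) _)

lemma lim2 (μ : Measure ℝ) [IsFiniteMeasure μ] {η : ℕ → ℝ} (hη : ∀ n, 0 < η n) {a b : ℝ}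
    (hsum : Summable fun n => ∫ E in Icc a b, |G μ (η (n + 1)) E - G μ (η n) E|)
    (hlim : ∀ᵐ E ∂(volume.restrict (Ioo a b)),
      Tendsto (fun n => F μ (η n) E) atTop (𝓝 (ell μ η E))) {c d : ℝ} (hac : a ≤ c) (hdb : d ≤ b) :
    Tendsto (fun n => ∫⁻ E in Ioo c d, F μ (η n) E) atTop (𝓝 (∫⁻ E in Ioo c d, ell μ η E)) := by
  refine tendsto_lintegral_of_dominated_convergence (bd μ η) (fun n => F_meas μ (hη n))
    (fun n => ae_of_all _ fun E => F_le_bd μ hη n E) ?_ ?_
  · refine ne_top_of_le_ne_top (bd_fin μ hη hsum) (lintegral_mono_set ?_)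
    exact (Ioo_subset_Ioo hac hdb).trans Ioo_subset_Icc_self
  · exact ae_restrict_of_ae_restrict_of_subset (Ioo_subset_Ioo hac hdb) hlim

lemma atom_le (μ : Measure ℝ) (c d u : ℝ) : W c d u * μ {u} ≤ ∫⁻ t, W c d t ∂μ := by
  rw [← lintegral_singleton (μ := μ) (fun t => W c d t) u]
  exact setLIntegral_le_lintegral _ _

lemma W_left {c d : ℝ} (h : c < d) : W c d c = ENNReal.ofReal (Real.pi / 2) := by
  unfold W
  rw [Real.sign_of_pos (by linarith), sub_self, Real.sign_zero]
  congr 1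
  ring

lemma W_right {c d : ℝ} (h : c < d) : W c d d = ENNReal.ofReal (Real.pi / 2) := by
  unfold W
  rw [Real.sign_of_neg (by linarith : c - d < 0), sub_self, Real.sign_zero]
  congr 1
  ring

lemma atom_zero (μ : Measure ℝ) {f : ℝ → ℝ≥0∞} {a b u : ℝ} {s : ℕ → Set ℝ}
    (hs : ∀ n, MeasurableSet (s n)) (hsub : ∀ n, s n ⊆ Ioo a b)
    (hvol : Tendsto (fun n => volume (s n)) atTop (𝓝 0))
    (hle : ∀ n, ENNReal.ofReal (Real.pi / 2) * μ {u} ≤ ∫⁻ E in s n, f E)
    (hfin : ∫⁻ E in Ioo a b, f E ≠ ∞) : μ {u} = 0 := by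
  have h1 : Tendsto ((volume.restrict (Ioo a b)) ∘ s) atTop (𝓝 0) := by
    refine tendsto_of_tendsto_of_tendsto_of_le_of_le tendsto_const_nhds hvol
      (fun _ => zero_le) (fun n => ?_)
    exact Measure.restrict_apply_le _ _
  have h2 := tendsto_setLIntegral_zero hfin h1
  have h3 : ∀ n, ∫⁻ E in s n, f E ∂(volume.restrict (Ioo a b)) = ∫⁻ E in s n, f E := by
    intro n
    rw [Measure.restrict_restrict (hs n), inter_eq_left.2 (hsub n)]
  simp_rw [h3] at h2
  have h4 : ENNReal.ofReal (Real.pi / 2) * μ {u} ≤ 0 := ge_of_tendsto' h2 hle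
  have h5 := nonpos_iff_eq_zero.1 h4
  rcases mul_eq_zero.1 h5 with h6 | h6
  · rw [ENNReal.ofReal_eq_zero] at h6
    have := Real.pi_pos
    linarith
  · exact h6

lemma meas_Ioc (M : Measure ℝ) {a b : ℝ} (hM : M (Ioo a b)ᶜ = 0) (hat : ∀ x, M {x} = 0) (c d : ℝ) :
    M (Ioc c d) = M (Ioo (max a c) (min b d)) := by
  apply le_antisymm
  · have h1 : Ioc c d ⊆ (Ioo (max a c) (min b d) ∪ {min b d}) ∪ (Ioo a b)ᶜ := by
      intro x hx
      by_cases hxab : x ∈ Ioo a b
      · left
        rcases lt_or_ge x (min b d) with h | h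
        · exact Or.inl ⟨max_lt hxab.1 hx.1, h⟩
        · exact Or.inr (le_antisymm (le_min hxab.2.le hx.2) h)
      · exact Or.inr hxab
    refine (measure_mono h1).trans ((measure_union_le _ _).trans ?_)
    rw [hM, add_zero]
    refine (measure_union_le _ _).trans ?_
    rw [hat, add_zero]
  · apply measure_mono
    intro x hx
    exact ⟨lt_of_le_of_lt (le_max_right _ _) hx.1, (lt_of_lt_of_le hx.2 (min_le_right _ _)).le⟩

theorem core (μ : Measure ℝ) [IsFiniteMeasure μ] {a b : ℝ} (hab : a < b) {η : ℕ → ℝ}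
    (hη : ∀ n, 0 < η n) (hη0 : Tendsto η atTop (𝓝 0))
    (hsum : Summable fun n => ∫ E in Icc a b, |G μ (η (n + 1)) E - G μ (η n) E|)
    (hL : ∀ᵐ E ∂(volume.restrict (Ioo a b)), ∃ L : ℝ, 0 < L ∧
      Tendsto (fun n => G μ (η n) E) atTop (𝓝 L)) :
    ∃ h : ℝ → ℝ, Measurable h ∧ (∀ᵐ E ∂(volume.restrict (Ioo a b)), 0 < h E) ∧
      μ.restrict (Ioo a b)
        = (volume.restrict (Ioo a b)).withDensity fun E => ENNReal.ofReal (h E) := by
  have hlim : ∀ᵐ E ∂(volume.restrict (Ioo a b)),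
      Tendsto (fun n => F μ (η n) E) atTop (𝓝 (ell μ η E)) ∧ 0 < ell μ η E ∧ ell μ η E ≠ ∞ := by
    filter_upwards [hL] with E hE
    obtain ⟨L, hL0, hLl⟩ := hE
    have h1 : Tendsto (fun n => F μ (η n) E) atTop (𝓝 (ENNReal.ofReal L)) := by
      have h2 := ENNReal.tendsto_ofReal hLl
      refine h2.congr fun n => ?_
      exact F_eq μ (hη n) E
    have h3 : ell μ η E = ENNReal.ofReal L := h1.limsup_eq
    rw [h3]
    exact ⟨h1, ENNReal.ofReal_pos.2 hL0, ENNReal.ofReal_ne_top⟩
  have hlim1 := hlim.mono fun E h => h.1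
  have key : ∀ c d, a ≤ c → c < d → d ≤ b →
      ∫⁻ t, W c d t ∂μ = ∫⁻ E in Ioo c d, ell μ η E := fun c d hc hcd hd =>
    tendsto_nhds_unique (lim1 μ hη hη0 hcd) (lim2 μ hη hsum hlim1 hc hd)
  have hfin : ∫⁻ E in Ioo a b, ell μ η E ≠ ∞ := by
    rw [← key a b le_rfl hab le_rfl]
    have h1 : ∫⁻ t, W a b t ∂μ ≤ ∫⁻ _t, ENNReal.ofReal Real.pi ∂μ := by
      apply lintegral_mono
      intro t
      apply ENNReal.ofReal_le_ofReal
      have hpi := Real.pi_pos
      have hs1 : Real.sign (b - t) ≤ 1 := by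
        rcases Real.sign_apply_eq (b - t) with h | h | h <;> rw [h] <;> norm_num
      have hs2 : -1 ≤ Real.sign (a - t) := by
        rcases Real.sign_apply_eq (a - t) with h | h | h <;> rw [h] <;> norm_num
      nlinarith
    refine ne_top_of_le_ne_top ?_ h1
    rw [lintegral_const]
    exact ENNReal.mul_ne_top ENNReal.ofReal_ne_top (measure_ne_top _ _)
  have hseq : ∀ r : ℝ, Tendsto (fun n : ℕ => ENNReal.ofReal (r * (1 / ((n : ℝ) + 1)))) atTop
      (𝓝 0) := by
    intro r
    have h1 := (tendsto_one_div_add_atTop_nhds_zero_nat (𝕜 := ℝ)).const_mul r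
    rw [mul_zero] at h1
    have h2 := ENNReal.tendsto_ofReal h1
    rwa [ENNReal.ofReal_zero] at h2
  have hr1 : ∀ n : ℕ, 0 < 1 / ((n : ℝ) + 1) ∧ 1 / ((n : ℝ) + 1) ≤ 1 := by
    intro n
    refine ⟨by positivity, ?_⟩
    rw [div_le_one (by positivity)]
    have : (0 : ℝ) ≤ n := n.cast_nonneg
    linarith
  have hatom : ∀ u ∈ Icc a b, μ {u} = 0 := by
    rintro u ⟨hau, hub⟩
    rcases lt_or_eq_of_le hub with hub' | rfl
    · have hpos : ∀ n : ℕ, 0 < (b - u) * (1 / ((n : ℝ) + 1)) := fun n =>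
        mul_pos (by linarith) (hr1 n).1
      have hle1 : ∀ n : ℕ, (b - u) * (1 / ((n : ℝ) + 1)) ≤ b - u := fun n =>
        mul_le_of_le_one_right (by linarith) (hr1 n).2
      refine atom_zero μ (f := ell μ η) (s := fun n : ℕ => Ioo u (u + (b - u) * (1 / ((n : ℝ) + 1))))
        (fun n => measurableSet_Ioo) (fun n => Ioo_subset_Ioo hau ?_) ?_ (fun n => ?_) hfin
      · have := hle1 n
        linarith
      · simp_rw [Real.volume_Ioo, add_sub_cancel_left]
        exact hseq _
      · have h1 : u < u + (b - u) * (1 / ((n : ℝ) + 1)) := by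
          have := hpos n
          linarith
        rw [← key u _ hau h1 (by have := hle1 n; linarith), ← W_left h1]
        exact atom_le μ _ _ _
    · have hpos : ∀ n : ℕ, 0 < (u - a) * (1 / ((n : ℝ) + 1)) := fun n =>
        mul_pos (by linarith) (hr1 n).1
      have hle1 : ∀ n : ℕ, (u - a) * (1 / ((n : ℝ) + 1)) ≤ u - a := fun n =>
        mul_le_of_le_one_right (by linarith) (hr1 n).2
      refine atom_zero μ (f := ell μ η) (s := fun n : ℕ => Ioo (u - (u - a) * (1 / ((n : ℝ) + 1))) u)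
        (fun n => measurableSet_Ioo) (fun n => Ioo_subset_Ioo ?_ le_rfl) ?_ (fun n => ?_) hfin
      · have := hle1 n
        linarith
      · simp_rw [Real.volume_Ioo, sub_sub_cancel]
        exact hseq _
      · have h1 : u - (u - a) * (1 / ((n : ℝ) + 1)) < u := by
          have := hpos n
          linarith
        rw [← key _ u (by have := hle1 n; linarith) h1 le_rfl, ← W_right h1]
        exact atom_le μ _ _ _
  have hIoo : ∀ c d, a ≤ c → c < d → d ≤ b →
      ENNReal.ofReal Real.pi * μ (Ioo c d) = ∫⁻ E in Ioo c d, ell μ η E := by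
    intro c d hc hcd hd
    rw [← key c d hc hcd hd]
    have h1 : ∀ᵐ t ∂μ, t ≠ c := by
      rw [ae_iff]
      simp only [not_not]
      exact hatom c ⟨hc, by linarith⟩
    have h2 : ∀ᵐ t ∂μ, t ≠ d := by
      rw [ae_iff]
      simp only [not_not]
      exact hatom d ⟨by linarith, hd⟩
    have h3 : ∫⁻ t, W c d t ∂μ = ∫⁻ t, (Ioo c d).indicator (fun _ => ENNReal.ofReal Real.pi) t ∂μ := by
      apply lintegral_congr_ae
      filter_upwards [h1, h2] with t ht1 ht2
      unfold W
      rcases lt_or_gt_of_ne ht1 with h | h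
      · rw [Real.sign_of_pos (by linarith), Real.sign_of_pos (by linarith), sub_self,
          ENNReal.ofReal_zero, indicator_of_notMem]
        rintro ⟨h', _⟩
        linarith
      · rcases lt_or_gt_of_ne ht2 with h' | h'
        · rw [Real.sign_of_pos (by linarith), Real.sign_of_neg (by linarith),
            indicator_of_mem (show t ∈ Ioo c d from ⟨h, h'⟩)]
          congr 1
          ring
        · rw [Real.sign_of_neg (by linarith), Real.sign_of_neg (by linarith), sub_self,
            ENNReal.ofReal_zero, indicator_of_notMem]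
          rintro ⟨_, h''⟩
          linarith
    rw [h3, lintegral_indicator measurableSet_Ioo, lintegral_const, Measure.restrict_apply_univ]
  refine ⟨fun E => (ell μ η E).toReal / Real.pi, (ell_meas μ hη).ennreal_toReal.div_const _, ?_, ?_⟩
  · filter_upwards [hlim] with E hE
    exact div_pos (ENNReal.toReal_pos hE.2.1.ne' hE.2.2) Real.pi_pos
  · have hpi0 : ENNReal.ofReal Real.pi ≠ 0 := (ENNReal.ofReal_pos.2 Real.pi_pos).ne'
    apply Measure.ext_of_Ioc
    intro c d _
    have hM1 : (μ.restrict (Ioo a b)) (Ioo a b)ᶜ = 0 := by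
      rw [Measure.restrict_apply measurableSet_Ioo.compl, compl_inter_self, measure_empty]
    have hM1' : ∀ x, (μ.restrict (Ioo a b)) {x} = 0 := by
      intro x
      rw [Measure.restrict_apply (measurableSet_singleton x)]
      by_cases hx : x ∈ Icc a b
      · exact measure_mono_null inter_subset_left (hatom x hx)
      · have : ({x} : Set ℝ) ∩ Ioo a b = ∅ := by
          ext y
          simp only [mem_inter_iff, mem_singleton_iff, mem_empty_iff_false, iff_false]
          rintro ⟨rfl, hy⟩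
          exact hx (Ioo_subset_Icc_self hy)
        rw [this, measure_empty]
    have hac := withDensity_absolutelyContinuous (volume.restrict (Ioo a b))
      (fun E => ENNReal.ofReal ((ell μ η E).toReal / Real.pi))
    have hM2 : ((volume.restrict (Ioo a b)).withDensity
        (fun E => ENNReal.ofReal ((ell μ η E).toReal / Real.pi))) (Ioo a b)ᶜ = 0 := by
      apply hac
      rw [Measure.restrict_apply measurableSet_Ioo.compl, compl_inter_self, measure_empty]
    have hM2' : ∀ x, ((volume.restrict (Ioo a b)).withDensity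
        (fun E => ENNReal.ofReal ((ell μ η E).toReal / Real.pi))) {x} = 0 := by
      intro x
      apply hac
      rw [Measure.restrict_apply (measurableSet_singleton x)]
      exact measure_mono_null inter_subset_left (by simp)
    rw [meas_Ioc _ hM1 hM1', meas_Ioc _ hM2 hM2']
    have hsub : Ioo (max a c) (min b d) ⊆ Ioo a b :=
      Ioo_subset_Ioo (le_max_left _ _) (min_le_left _ _)
    rw [Measure.restrict_apply measurableSet_Ioo, withDensity_apply _ measurableSet_Ioo,
      Measure.restrict_restrict measurableSet_Ioo, inter_eq_left.2 hsub]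
    rcases lt_or_ge (max a c) (min b d) with hlt | hge
    · have h1 := hIoo _ _ (le_max_left a c) hlt (min_le_left b d)
      have h2 : ∫⁻ E in Ioo (max a c) (min b d), ENNReal.ofReal ((ell μ η E).toReal / Real.pi)
          = ∫⁻ E in Ioo (max a c) (min b d), (ENNReal.ofReal Real.pi)⁻¹ * ell μ η E := by
        apply lintegral_congr_ae
        filter_upwards [ae_restrict_of_ae_restrict_of_subset hsub hlim] with E hE
        rw [ENNReal.ofReal_div_of_pos Real.pi_pos, ENNReal.ofReal_toReal hE.2.2,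
          ENNReal.div_eq_inv_mul]
      rw [h2, lintegral_const_mul _ (ell_meas μ hη), ← h1, ← mul_assoc,
        ENNReal.inv_mul_cancel hpi0 ENNReal.ofReal_ne_top, one_mul]
    · rw [Ioo_eq_empty (not_lt.2 hge)]
      simp

theorem main : Pool.Agent.W792.WA.S_ACI := by
  intro μ _ a b η hab hη hη0 hsum hL
  have h1 : ∀ (n : ℕ) (E : ℝ), (∫ t : ℝ, 1 / ((t : ℂ) - ⟨E, η n⟩) ∂μ).im = G μ (η n) E :=
    fun n E => im_eq μ (hη n) E
  simp_rw [h1] at hsum hL
  exact core μ hab hη hη0 hsum hL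

end

end Pool.Agent.W465.WAAci
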